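import Mathlib

/-!
# Simultaneous packing and covering constants of a normed space
-/

set_option autoImplicit false

namespace Pool.Agent.H524Z.Gam

variable {X : Type} [NormedAddCommGroup X]

/-- `P` is `r`-separated: distinct points of `P` are at distance at least `r`. -/
def IsSep (r : ℝ) (P : Set X) : Prop := ∀ x ∈ P, ∀ y ∈ P, x ≠ y → r ≤ ‖x - y‖

/-- `P` is `r`-dense: every point of the space is within distance `r` of a point of `P`. -/
def IsDen (r : ℝ) (P : Set X) : Prop := ∀ x : X, ∃ p ∈ P, ‖x - p‖ ≤ r

/-- The simultaneous packing and covering constant: the infimum (in the extended reals) of the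
`r > 0` such that some set is `r`-dense and `2`-separated. -/
noncomputable def gamma (X : Type) [NormedAddCommGroup X] : EReal :=
  sInf ((fun r : ℝ => (r : EReal)) '' {r : ℝ | 0 < r ∧ ∃ P : Set X, IsDen r P ∧ IsSep 2 P})

/-- The lattice simultaneous packing and covering constant: the infimum (in the extended reals) of
the `r > 0` such that some additive subgroup is `r`-dense and `2`-separated. -/
noncomputable def gammaStar (X : Type) [NormedAddCommGroup X] : EReal :=
  sInf ((fun r : ℝ => (r : EReal)) ''
    {r : ℝ | 0 < r ∧ ∃ P : AddSubgroup X, IsDen r (P : Set X) ∧ IsSep 2 (P : Set X)})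

end Pool.Agent.H524Z.Gam
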