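import Pool.Agent.H524Z.Gam.Step

/-!
# No efficient lattice packing and covering
-/

set_option autoImplicit false

open Classical

namespace Pool.Agent.H524Z.Gam

open Pool.Agent.H524Z.Tile

variable {Γ : Type} {D : Γ → Finset Γ} {S : Set Γ} {N : (Γ →₀ ℝ) → ℝ}

theorem exists_closed (F : Finset Γ → Set Γ) (hF : ∀ R, (F R).Countable) :
    ∃ M : Set Γ, M.Countable ∧ ∀ R : Finset Γ, (R : Set Γ) ⊆ M → F R ⊆ M := by
  let Φ : Set Γ → Set Γ := fun M => M ∪ ⋃ R ∈ {R : Finset Γ | (R : Set Γ) ⊆ M}, F R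
  let A : ℕ → Set Γ := fun n => Φ^[n] ∅
  have hA : ∀ n, A (n + 1) = Φ (A n) := fun n => Function.iterate_succ_apply' _ _ _
  have hc : ∀ n, (A n).Countable := by
    intro n
    induction n with
    | zero => exact Set.countable_empty
    | succ n ih =>
      rw [hA]
      refine ih.union (Set.Countable.biUnion ?_ fun R _ => hF R)
      have h1 := Set.countable_ofPred_finite_subset ih
      refine Set.MapsTo.countable_of_injOn (f := fun R : Finset Γ => (R : Set Γ)) ?_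
        Finset.coe_injective.injOn h1
      intro R hR
      exact ⟨R.finite_toSet, hR⟩
  have hm : Monotone A := monotone_nat_of_le_succ fun n => by
    rw [hA]; exact Set.subset_union_left
  refine ⟨⋃ n, A n, Set.countable_iUnion hc, fun R hR => ?_⟩
  have : ∃ n, (R : Set Γ) ⊆ A n := by
    induction R using Finset.induction_on with
    | empty => exact ⟨0, by simp⟩
    | insert c R _ ih =>
      rw [Finset.coe_insert, Set.insert_subset_iff] at hR
      obtain ⟨n, hn⟩ := ih hR.2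
      obtain ⟨k, hk⟩ := Set.mem_iUnion.1 hR.1
      refine ⟨max n k, ?_⟩
      rw [Finset.coe_insert]
      exact Set.insert_subset (hm (le_max_right _ _) hk) (hn.trans (hm (le_max_left _ _)))
  obtain ⟨n, hn⟩ := this
  refine Set.Subset.trans ?_ (Set.subset_iUnion A (n + 1))
  rw [hA]
  intro c hc
  exact Or.inr (Set.mem_biUnion (t := fun R => F R) hn hc)

theorem Nice.le_sum (h : Nice D S N) {v : Γ →₀ ℝ} (hv : v ∈ Y S) :
    N v ≤ ∑ c ∈ v.support, |v c| := by
  have hS : ∀ c ∈ v.support, c ∈ S := fun c hc =>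
    by_contra fun h1 => Finsupp.mem_support_iff.1 hc (mem_Y.1 hv c h1)
  have e : v = ∑ c ∈ v.support, Finsupp.single c (v c) := (Finsupp.sum_single v).symm
  refine le_trans (le_of_eq (congrArg N e)) ?_
  refine (semi_sum h.semi _ _ fun c hc => single_mem (hS c hc) _).trans (le_of_eq ?_)
  apply Finset.sum_congr rfl
  intro c hc
  have := h.semi.smul (v c) _ (single_mem (hS c hc) 1)
  rwa [Finsupp.smul_single, smul_eq_mul, mul_one, h.unit c (hS c hc), mul_one] at this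

theorem Nice.pair (h : Nice D S N) {y y' : Γ →₀ ℝ} (hy : y ∈ Y S) (hy' : y' ∈ Y S) (R : Set Γ)
    (h1 : N y ^ 2 ≤ 101 / 100) (h2 : N y' ^ 2 ≤ 101 / 100) (h3 : N (P R (y - y')) ≤ 1 / 250)
    (hI : Ind D (P Rᶜ y) (P Rᶜ y')) (h4 : 2 ≤ N (y - y')) : N (y + y') < 2 := by
  set z := P Rᶜ y with hz
  set z' := P Rᶜ y' with hz'
  have zY : z ∈ Y S := P_mem _ hy
  have z'Y : z' ∈ Y S := P_mem _ hy'
  have n1 : N z ^ 2 ≤ 101 / 100 :=
    (pow_le_pow_left₀ (h.semi.nonneg zY) (h.P_le _ hy) 2).trans h1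
  have n2 : N z' ^ 2 ≤ 101 / 100 :=
    (pow_le_pow_left₀ (h.semi.nonneg z'Y) (h.P_le _ hy') 2).trans h2
  have e1 : y - y' = P R (y - y') + (z + -z') := by
    rw [← sub_eq_add_neg, hz, hz', ← map_sub, P_add_compl]
  have h5 := h.semi.add _ (P_mem R (Submodule.sub_mem _ hy hy')) _
    (Submodule.add_mem _ zY (Submodule.neg_mem _ z'Y))
  rw [← e1] at h5
  obtain ⟨a, b, hab⟩ : ∃ a b, 98 / 100 < z a * z' b := by
    by_contra hcon
    push Not at hcon
    have := h.cross z zY (-z') (Submodule.neg_mem _ z'Y) (98 / 100) (by norm_num)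
      (hI.mono (fun _ h => h) fun a ha => by simp [ha]) fun a b => by simpa using hcon a b
    rw [h.semi.neg z'Y] at this
    nlinarith
  have za : z a ≠ 0 := by
    rintro h0
    rw [h0] at hab
    norm_num at hab
  have zb : z' b ≠ 0 := by
    rintro h0
    rw [h0] at hab
    norm_num at hab
  have ya : z a = y a := by
    rw [hz, P_apply] at za ⊢
    split_ifs at za ⊢
    · rfl
    · exact absurd rfl za
  have yb : z' b = y' b := by
    rw [hz', P_apply] at zb ⊢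
    split_ifs at zb ⊢
    · rfl
    · exact absurd rfl zb
  have aS : a ∈ S := by_contra fun h1 => za (mem_Y.1 zY a h1)
  have bS : b ∈ S := by_contra fun h1 => zb (mem_Y.1 z'Y b h1)
  have l1 := h.l2 {a}ᶜ y hy
  have l2 := h.l2 {b}ᶜ y' hy'
  rw [compl_compl, P_single, q_single] at l1 l2
  rw [ya, yb] at hab
  set α := y a
  set β := y' b
  have a2 : α ^ 2 ≤ 101 / 100 := by nlinarith [sq_nonneg (N (P {a}ᶜ y))]
  have b2 : β ^ 2 ≤ 101 / 100 := by nlinarith [sq_nonneg (N (P {b}ᶜ y'))]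
  have ab2 : (98 / 100) ^ 2 < α ^ 2 * β ^ 2 := by nlinarith
  have a3 : 95 / 100 ≤ α ^ 2 := by nlinarith [sq_nonneg α, sq_nonneg β]
  have b3 : 95 / 100 ≤ β ^ 2 := by nlinarith [sq_nonneg α, sq_nonneg β]
  have r1 : N (P {a}ᶜ y) ≤ 1 / 4 := le_of_sq_le_sq (by linarith) (by norm_num)
  have r2 : N (P {b}ᶜ y') ≤ 1 / 4 := le_of_sq_le_sq (by linarith) (by norm_num)
  have sa := single_mem aS α
  have sb := single_mem bS β
  have c1 := h.cross _ sa _ sb 0 le_rfl (hI.mono (fun c hc => by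
      have : c ≠ a := fun h => za (h ▸ hc)
      simp [this]) fun c hc => by
      have : c ≠ b := fun h => zb (h ▸ hc)
      simp [this]) fun c d => by
    by_cases hc : c = a
    · by_cases hd : d = b
      · rw [hc, hd, Finsupp.single_eq_same, Finsupp.single_eq_same]
        linarith
      · simp [hd]
    · simp [hc]
  have u1 := h.semi.smul α _ (single_mem aS 1)
  have u2 := h.semi.smul β _ (single_mem bS 1)
  rw [Finsupp.smul_single, smul_eq_mul, mul_one, h.unit _ aS, mul_one] at u1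
  rw [Finsupp.smul_single, smul_eq_mul, mul_one, h.unit _ bS, mul_one] at u2
  rw [u1, u2, sq_abs, sq_abs] at c1
  have r3 : N (Finsupp.single a α + Finsupp.single b β) ≤ 143 / 100 :=
    le_of_sq_le_sq (by linarith) (by norm_num)
  have e2 : y + y' = (Finsupp.single a α + Finsupp.single b β) + (P {a}ᶜ y + P {b}ᶜ y') := by
    rw [add_add_add_comm, ← P_single, ← P_single, P_add_compl, P_add_compl]
  have t1 := h.semi.add _ (Submodule.add_mem _ sa sb) _
    (Submodule.add_mem _ (P_mem {a}ᶜ hy) (P_mem {b}ᶜ hy'))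
  have t2 := h.semi.add _ (P_mem {a}ᶜ hy) _ (P_mem {b}ᶜ hy')
  rw [← e2] at t1
  linarith

theorem Nice.no_lattice (h : Nice D S N) (hS : ¬ S.Countable) (L : AddSubgroup (Γ →₀ ℝ))
    (hL : ∀ g ∈ L, g ∈ Y S) (hsep : ∀ g ∈ L, g ≠ 0 → 2 ≤ N g) {r : ℝ}
    (hden : ∀ x ∈ Y S, ∃ g ∈ L, N (x - g) ≤ r) : 1 + 1 / 1000000 ≤ r := by
  by_contra hr
  push Not at hr
  obtain ⟨c0, hc0⟩ : S.Nonempty := by
    by_contra h0
    exact hS (Set.not_nonempty_iff_eq_empty.1 h0 ▸ Set.countable_empty)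
  have us : ∀ c ∈ S, ∀ a : ℝ, N (Finsupp.single c a) = |a| := by
    intro c hc a
    have := h.semi.smul a _ (single_mem hc 1)
    rwa [Finsupp.smul_single, smul_eq_mul, mul_one, h.unit c hc, mul_one] at this
  obtain ⟨p, hpL, hp⟩ : ∃ p ∈ L, ∀ g ∈ L, p ≠ (2 : ℝ) • g := by
    by_contra hcon
    push Not at hcon
    obtain ⟨g0, hg0, h0⟩ := hden _ (single_mem hc0 10)
    have hne : g0 ≠ 0 := by
      rintro rfl
      rw [sub_zero, us c0 hc0] at h0
      norm_num at h0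
      linarith
    have : ∀ k : ℕ, ∃ g ∈ L, g ≠ 0 ∧ N g0 = 2 ^ k * N g := by
      intro k
      induction k with
      | zero => exact ⟨g0, hg0, hne, by simp⟩
      | succ k ih =>
        obtain ⟨g, hg, h1, h2⟩ := ih
        obtain ⟨g', hg', h3⟩ := hcon g hg
        refine ⟨g', hg', fun h4 => h1 (by rw [h3, h4, smul_zero]), ?_⟩
        rw [h2, h3, h.semi.smul 2 _ (hL g' hg'), abs_two, pow_succ, mul_assoc]
    obtain ⟨k, hk⟩ := pow_unbounded_of_one_lt (N g0) (one_lt_two (α := ℝ))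
    obtain ⟨g, hg, h1, h2⟩ := this k
    have := hsep g hg h1
    have h3 : (0 : ℝ) < 2 ^ k := by positivity
    nlinarith
  set Z : Set (Γ →₀ ℝ) := {y | (∃ g ∈ L, y = (1 / 2 : ℝ) • p - g) ∧ N y ^ 2 ≤ 101 / 100} with hZ
  have hpY : (1 / 2 : ℝ) • p ∈ Y S := Submodule.smul_mem _ _ (hL p hpL)
  have e2 : (1 / 2 : ℝ) • p + (1 / 2 : ℝ) • p = p := by rw [← add_smul]; norm_num
  set T : (Γ →₀ ℝ) → Finset Γ := fun y => y.support ∪ y.support.biUnion D with hT
  set fl : (R : Finset Γ) → (Γ →₀ ℝ) → R → ℤ :=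
    fun R y c => ⌊y c * (250 * (R.card + 1))⌋ with hfl
  set ch : (R : Finset Γ) → (R → ℤ) → (Γ →₀ ℝ) :=
    fun R k => if h : ∃ y ∈ Z, fl R y = k then h.choose else 0 with hch
  obtain ⟨M, hM, hcl⟩ := exists_closed (fun R => ⋃ k, (T (ch R k) : Set Γ))
    fun R => Set.countable_iUnion fun k => (Finset.finite_toSet _).countable
  obtain ⟨γ, hγS, hγM⟩ : ∃ γ ∈ S, γ ∉ M := by
    by_contra hcon
    push Not at hcon
    exact hS (hM.mono hcon)
  obtain ⟨g, hg, hgr⟩ := hden _ (Submodule.add_mem _ hpY (single_mem hγS (1 / 250)))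
  set y := (1 / 2 : ℝ) • p - g with hy
  have yY : y ∈ Y S := Submodule.sub_mem _ hpY (hL g hg)
  rw [add_sub_right_comm, ← hy] at hgr
  have wY := Submodule.add_mem _ yY (single_mem hγS (1 / 250))
  have y1 : 1 ≤ N y := by
    have h1 : y + y = p - (g + g) := by rw [hy, sub_add_sub_comm, e2]
    have h2 := hsep (p - (g + g)) (L.sub_mem hpL (L.add_mem hg hg))
      fun h0 => hp g hg (by rw [two_smul]; exact sub_eq_zero.1 h0)
    have h3 := h.semi.add y yY y yY
    rw [h1] at h3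
    linarith
  have yγ : y γ ≠ 0 := by
    intro h0
    have h1 := h.l2 {γ}ᶜ _ wY
    have h2 : P {γ}ᶜ (y + Finsupp.single γ (1 / 250)) = y := by
      ext c
      rw [P_apply]
      by_cases hc : c = γ
      · simp [hc, h0]
      · simp [hc]
    rw [compl_compl, P_single, q_single, h2, Finsupp.add_apply, h0, Finsupp.single_eq_same] at h1
    have h3 := h.semi.nonneg wY
    nlinarith
  have yZ : y ∈ Z := by
    refine ⟨⟨g, hg, rfl⟩, ?_⟩
    have h1 := h.semi.add _ wY _ (Submodule.neg_mem _ (single_mem hγS (1 / 250)))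
    rw [add_neg_cancel_right, h.semi.neg (single_mem hγS _), us γ hγS,
      abs_of_pos (by norm_num)] at h1
    nlinarith
  set R : Finset Γ := (T y).filter (· ∈ M) with hR
  have hex : ∃ y' ∈ Z, fl R y' = fl R y := ⟨y, yZ, rfl⟩
  set y' := ch R (fl R y) with hy'
  have hy'2 : y' ∈ Z ∧ fl R y' = fl R y := by
    simp only [hy', hch, dif_pos hex]
    exact hex.choose_spec
  have hTM : ∀ c ∈ T y', c ∈ M := fun c hc =>
    hcl R (fun a ha => (Finset.mem_filter.1 ha).2) (Set.mem_iUnion.2 ⟨fl R y, hc⟩)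
  obtain ⟨⟨⟨g', hg', hy'g⟩, n'⟩, hfl'⟩ := hy'2
  have y'Y : y' ∈ Y S := hy'g ▸ Submodule.sub_mem _ hpY (hL g' hg')
  have T1 : ∀ (v : Γ →₀ ℝ) a, v a ≠ 0 → a ∈ T v := fun v a ha =>
    Finset.mem_union_left _ (Finsupp.mem_support_iff.2 ha)
  have T2 : ∀ (v : Γ →₀ ℝ) a, v a ≠ 0 → ∀ b ∈ D a, b ∈ T v := fun v a ha b hb =>
    Finset.mem_union_right _ (Finset.mem_biUnion.2 ⟨a, Finsupp.mem_support_iff.2 ha, hb⟩)
  have y'γ : y' γ = 0 := by_contra fun h0 => hγM (hTM γ (T1 _ _ h0))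
  have Pn : ∀ (v : Γ →₀ ℝ) a, P (R : Set Γ)ᶜ v a ≠ 0 → v a ≠ 0 ∧ a ∉ R := by
    intro v a ha
    rw [P_apply] at ha
    split_ifs at ha with h1
    · exact ⟨ha, h1⟩
    · exact absurd rfl ha
  have hI : Ind D (P (R : Set Γ)ᶜ y) (P (R : Set Γ)ᶜ y') := by
    constructor
    · intro a ha
      obtain ⟨h1, h2⟩ := Pn y a ha
      refine ⟨by_contra fun h3 => h2 (Finset.mem_filter.2
        ⟨T1 _ _ h1, hTM a (T1 _ _ (Pn _ _ h3).1)⟩), fun b hb => by_contra fun h3 => ?_⟩
      exact (Pn _ _ h3).2 (Finset.mem_filter.2 ⟨T2 _ _ h1 b hb, hTM b (T1 _ _ (Pn _ _ h3).1)⟩)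
    · intro a ha b hb
      by_contra h3
      exact (Pn _ _ h3).2 (Finset.mem_filter.2
        ⟨T1 _ _ (Pn _ _ h3).1, hTM b (T2 _ _ (Pn _ _ ha).1 b hb)⟩)
  have h3 : N (P R (y - y')) ≤ 1 / 250 := by
    refine (h.le_sum (P_mem _ (Submodule.sub_mem _ yY y'Y))).trans ?_
    have k0 : (0 : ℝ) < 250 * (R.card + 1) := by positivity
    have hsub : (P R (y - y')).support ⊆ R := by
      intro c hc
      rw [Finsupp.mem_support_iff, P_apply] at hc
      by_contra h1
      exact hc (if_neg h1)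
    refine (Finset.sum_le_sum_of_subset_of_nonneg hsub fun _ _ _ => abs_nonneg _).trans ?_
    refine (Finset.sum_le_card_nsmul R _ (1 / (250 * ((R.card : ℝ) + 1))) fun c hc => ?_).trans ?_
    · rw [P_apply, if_pos (Finset.mem_coe.2 hc), Finsupp.sub_apply, le_div_iff₀ k0]
      have h1 := Int.abs_sub_lt_one_of_floor_eq_floor (congrFun hfl'.symm ⟨c, hc⟩)
      rw [← sub_mul, abs_mul, abs_of_pos k0] at h1
      exact h1.le
    · rw [nsmul_eq_mul, mul_one_div, div_le_div_iff₀ k0 (by norm_num)]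
      linarith
  have h4 : 2 ≤ N (y - y') := by
    refine hsep _ ?_ fun h0 => yγ ?_
    · rw [hy'g, hy, sub_sub_sub_cancel_left]
      exact L.sub_mem hg' hg
    · rw [sub_eq_zero.1 h0, y'γ]
  have h5 : 2 ≤ N (y + y') := by
    refine hsep _ ?_ fun h0 => yγ ?_
    · rw [hy'g, hy, sub_add_sub_comm, e2]
      exact L.sub_mem hpL (L.add_mem hg hg')
    · rw [eq_neg_of_add_eq_zero_left h0, Finsupp.neg_apply, y'γ, neg_zero]
  exact absurd (h.pair yY y'Y R yZ.2 n' h3 hI h4) (not_lt.2 h5)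

end Pool.Agent.H524Z.Gam
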