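import Pool.Agent.H524Z.Gam.Lower
import Pool.Agent.H524Z.Gam.Defs

/-!
# A normed space whose two packing and covering constants differ
-/

set_option autoImplicit false

open Classical

namespace Pool.Agent.H524Z.Gam

open Pool.Agent.H524Z.Tile

variable {Γ : Type}

/-- the centre attached to a coordinate -/
noncomputable def ctr (pt : Γ → Γ →₀ ℝ) (c : Γ) : Γ →₀ ℝ := pt c + Finsupp.single c 1

/-- the dependency set of a coordinate -/
noncomputable def dep (pt : Γ → Γ →₀ ℝ) (δ : Γ) : Finset Γ :=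
  (pt δ).support.biUnion fun c => (pt δ - ctr pt c).support

/-- a stage of the construction -/
structure St (pt : Γ → Γ →₀ ℝ) (S0 : Set Γ) where
  S : Set Γ
  N : (Γ →₀ ℝ) → ℝ
  nice : Nice (dep pt) S N
  sub : S0 ⊆ S
  mem : ∀ c ∈ S, c ∉ S0 → pt c ∈ Y S ∧ pt c c = 0
  sep : ∀ c ∈ S, c ∉ S0 → ∀ d ∈ S, d ∉ S0 → c ≠ d → 2 ≤ N (ctr pt c - ctr pt d)

variable {pt : Γ → Γ →₀ ℝ} {S0 : Set Γ}

/-- extension of stages -/
def Ext (a b : St pt S0) : Prop := a.S ⊆ b.S ∧ ∀ y ∈ Y a.S, b.N y = a.N y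

theorem St.ctr_mem (a : St pt S0) {c : Γ} (hc : c ∈ a.S) (h0 : c ∉ S0) : ctr pt c ∈ Y a.S :=
  Submodule.add_mem _ (a.mem c hc h0).1 (single_mem hc 1)

instance : Nonempty (St pt S0) := ⟨⟨S0, _, nice_init _ _, subset_rfl,
  fun _ h1 h2 => absurd h1 h2, fun _ h1 h2 => absurd h1 h2⟩⟩

theorem chain_bound (C : Set (St pt S0)) (hC : IsChain Ext C) (hne : C.Nonempty) :
    ∃ u, ∀ a ∈ C, Ext a u := by
  have hcmp : ∀ a ∈ C, ∀ b ∈ C, Ext a b ∨ Ext b a := by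
    intro a ha b hb
    by_cases h : a = b
    · exact Or.inl (h ▸ ⟨subset_rfl, fun _ _ => rfl⟩)
    · exact hC ha hb h
  set S : Set Γ := ⋃ a ∈ C, a.S with hS
  have hsub : ∀ a ∈ C, a.S ⊆ S := fun a ha => Set.subset_biUnion_of_mem (u := fun a => a.S) ha
  have hfin : ∀ T : Finset Γ, (T : Set Γ) ⊆ S → ∃ a ∈ C, (T : Set Γ) ⊆ a.S := by
    intro T
    induction T using Finset.induction_on with
    | empty =>
      intro _
      obtain ⟨a, ha⟩ := hne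
      exact ⟨a, ha, by simp⟩
    | insert c T _ ih =>
      intro h
      rw [Finset.coe_insert, Set.insert_subset_iff] at h
      obtain ⟨a, ha, h1⟩ := ih h.2
      obtain ⟨b, hb, h2⟩ := Set.mem_iUnion₂.1 h.1
      rcases hcmp a ha b hb with h3 | h3
      · exact ⟨b, hb, by
          rw [Finset.coe_insert]; exact Set.insert_subset h2 (h1.trans h3.1)⟩
      · exact ⟨a, ha, by
          rw [Finset.coe_insert]; exact Set.insert_subset (h3.1 h2) h1⟩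
  have h2 : ∀ x ∈ Y S, ∀ y ∈ Y S, ∃ a ∈ C, x ∈ Y a.S ∧ y ∈ Y a.S := by
    intro x hx y hy
    rw [Finsupp.mem_supported] at hx hy
    obtain ⟨a, ha, h⟩ := hfin (x.support ∪ y.support) (by
      rw [Finset.coe_union]; exact Set.union_subset hx hy)
    rw [Finset.coe_union, Set.union_subset_iff] at h
    exact ⟨a, ha, (Finsupp.mem_supported _ _).2 h.1, (Finsupp.mem_supported _ _).2 h.2⟩
  set N : (Γ →₀ ℝ) → ℝ := fun y => if h : ∃ a ∈ C, y ∈ Y a.S then h.choose.N y else 0 with hN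
  have hNa : ∀ a ∈ C, ∀ y ∈ Y a.S, N y = a.N y := by
    intro a ha y hy
    have h : ∃ a ∈ C, y ∈ Y a.S := ⟨a, ha, hy⟩
    simp only [hN, dif_pos h]
    rcases hcmp a ha _ h.choose_spec.1 with h3 | h3
    · exact h3.2 y hy
    · exact (h3.2 y h.choose_spec.2).symm
  refine ⟨⟨S, N, ⟨⟨?_, ?_⟩, ?_, ?_, ?_⟩, ?_, ?_, ?_⟩, fun a ha => ⟨hsub a ha, hNa a ha⟩⟩
  · intro x hx y hy
    obtain ⟨a, ha, h1, h2⟩ := h2 x hx y hy
    rw [hNa a ha _ h1, hNa a ha _ h2, hNa a ha _ (Submodule.add_mem _ h1 h2)]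
    exact a.nice.semi.add x h1 y h2
  · intro r x hx
    obtain ⟨a, ha, h1, -⟩ := h2 x hx x hx
    rw [hNa a ha _ h1, hNa a ha _ (Submodule.smul_mem _ r h1)]
    exact a.nice.semi.smul r x h1
  · intro B x hx
    obtain ⟨a, ha, h1, -⟩ := h2 x hx x hx
    rw [hNa a ha _ h1, hNa a ha _ (P_mem B h1)]
    exact a.nice.l2 B x h1
  · intro c hc
    obtain ⟨a, ha, h1⟩ := Set.mem_iUnion₂.1 hc
    rw [hNa a ha _ (single_mem h1 1)]
    exact a.nice.unit c h1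
  · intro x hx y hy m hm hI hM
    obtain ⟨a, ha, h1, h2⟩ := h2 x hx y hy
    rw [hNa a ha _ h1, hNa a ha _ h2, hNa a ha _ (Submodule.add_mem _ h1 h2)]
    exact a.nice.cross x h1 y h2 m hm hI hM
  · obtain ⟨a, ha⟩ := hne
    exact a.sub.trans (hsub a ha)
  · intro c hc h0
    obtain ⟨a, ha, h1⟩ := Set.mem_iUnion₂.1 hc
    exact ⟨Y_mono (hsub a ha) (a.mem c h1 h0).1, (a.mem c h1 h0).2⟩
  · intro c hc c0 d hd d0 hcd
    obtain ⟨a, ha, h⟩ := hfin {c, d} (by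
      rw [Finset.coe_pair]; exact Set.pair_subset hc hd)
    rw [Finset.coe_pair, Set.pair_subset_iff] at h
    rw [hNa a ha _ (Submodule.sub_mem _ (a.ctr_mem h.1 c0) (a.ctr_mem h.2 d0))]
    exact a.sep c h.1 c0 d h.2 d0 hcd

theorem exists_cover (hpt : ∀ x, ∃ γ, γ ∉ S0 ∧ pt γ = x) :
    ∃ a : St pt S0, ∀ x ∈ Y a.S, ∃ c ∈ a.S, c ∉ S0 ∧ a.N (x - ctr pt c) ≤ 1 := by
  obtain ⟨a, ha⟩ := exists_maximal_of_nonempty_chains_bounded (r := Ext (pt := pt) (S0 := S0))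
    chain_bound (fun {a b c} h1 h2 => ⟨h1.1.trans h2.1, fun y hy =>
      (h2.2 y (Y_mono h1.1 hy)).trans (h1.2 y hy)⟩)
  refine ⟨a, fun x hx => ?_⟩
  by_contra hcov
  push Not at hcov
  obtain ⟨γ, γ0, rfl⟩ := hpt x
  have hγ : γ ∉ a.S := by
    intro h
    have := hcov γ h γ0
    rw [ctr, sub_add_cancel_left, a.nice.semi.neg (single_mem h 1), a.nice.unit γ h] at this
    exact lt_irrefl _ this
  obtain ⟨N', g, e1, e2, e3⟩ := a.nice.extend hγ
  have hs := Set.subset_insert γ a.S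
  have key : ∀ c ∈ a.S, c ∉ S0 → 2 ≤ N' (ctr pt γ - ctr pt c) := by
    intro c hc c0
    have hy := Submodule.sub_mem _ hx (a.ctr_mem hc c0)
    rw [ctr, ← sub_add_eq_add_sub]
    by_cases h : pt γ c = 0
    · exact e3 _ hy c (by simp [ctr, h, (a.mem c hc c0).2])
    · have := e2 _ hy fun b hb => Finset.mem_biUnion.2
        ⟨c, Finsupp.mem_support_iff.2 h, Finsupp.mem_support_iff.2 hb⟩
      linarith [hcov c hc c0]
  have hm : ctr pt γ ∈ Y (insert γ a.S) :=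
    Submodule.add_mem _ (Y_mono hs hx) (single_mem (Set.mem_insert _ _) 1)
  let b : St pt S0 := ⟨insert γ a.S, N', g, a.sub.trans hs, by
      rintro c (rfl | hc) c0
      · exact ⟨Y_mono hs hx, mem_Y.1 hx _ hγ⟩
      · exact ⟨Y_mono hs (a.mem c hc c0).1, (a.mem c hc c0).2⟩, by
      rintro c (rfl | hc) c0 d (rfl | hd) d0 hcd
      · exact absurd rfl hcd
      · exact key d hd d0
      · rw [← neg_sub, g.semi.neg (Submodule.sub_mem _ hm (Y_mono hs (a.ctr_mem hc c0)))]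
        exact key c hc c0
      · rw [e1 _ (Submodule.sub_mem _ (a.ctr_mem hc c0) (a.ctr_mem hd d0))]
        exact a.sep c hc c0 d hd d0 hcd⟩
  exact hγ ((ha b ⟨hs, e1⟩).1 (Set.mem_insert _ _))

theorem exists_pt : ∃ pt : ℝ ⊕ ℝ → (ℝ ⊕ ℝ) →₀ ℝ,
    ∀ x, ∃ γ, γ ∉ Set.range (Sum.inl : ℝ → ℝ ⊕ ℝ) ∧ pt γ = x := by
  have : Cardinal.mk ℝ = Cardinal.mk ((ℝ ⊕ ℝ) →₀ ℝ) := by simp
  obtain ⟨e⟩ := Cardinal.eq.1 this
  exact ⟨Sum.elim e e, fun x => ⟨Sum.inr (e.symm x), by simp, by simp⟩⟩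

/-- the norm of a stage -/
noncomputable def St.grpNorm (a : St pt S0) : AddGroupNorm (Y a.S) where
  toFun x := a.N x
  map_zero' := a.nice.semi.zero
  add_le' x y := a.nice.semi.add _ x.2 _ y.2
  neg' x := a.nice.semi.neg x.2
  eq_zero_of_map_eq_zero' x h := by
    ext c
    have := a.nice.coord x.2 c
    rw [h] at this
    exact abs_nonpos_iff.1 this

theorem main : ∃ (X : Type) (_ : NormedAddCommGroup X) (_ : NormedSpace ℝ X),
    ¬ FiniteDimensional ℝ X ∧ gamma X ≤ 1 ∧ 1 < gammaStar X := by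
  obtain ⟨pt, hpt⟩ := exists_pt
  obtain ⟨a, ha⟩ := exists_cover hpt
  have hS : ¬ a.S.Countable := fun h =>
    Set.not_countable_univ (α := ℝ) (Set.MapsTo.countable_of_injOn (f := Sum.inl)
      (fun c _ => a.sub ⟨c, rfl⟩) Sum.inl_injective.injOn h)
  let i1 : NormedAddCommGroup (Y a.S) := a.grpNorm.toNormedAddCommGroup
  have hn : ∀ x : Y a.S, ‖x‖ = a.N x := fun _ => rfl
  let i2 : NormedSpace ℝ (Y a.S) := ⟨fun r x => by
    rw [hn, hn, Real.norm_eq_abs]; exact (a.nice.semi.smul r _ x.2).le⟩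
  refine ⟨Y a.S, i1, i2, ?_, ?_, ?_⟩
  · intro hfd
    have h1 : FiniteDimensional ℝ (a.S →₀ ℝ) :=
      (Finsupp.supportedEquivFinsupp (R := ℝ) (M := ℝ) a.S).finiteDimensional
    have h2 : Finite a.S := Module.Finite.finite_basis (Finsupp.basisSingleOne (R := ℝ))
    exact hS (Set.toFinite a.S).countable
  · refine sInf_le ⟨1, ⟨one_pos, {z | ∃ c ∈ a.S, c ∉ Set.range Sum.inl ∧
      (z : (ℝ ⊕ ℝ) →₀ ℝ) = ctr pt c}, ?_, ?_⟩, rfl⟩
    · intro x
      obtain ⟨c, hc, c0, h⟩ := ha x x.2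
      exact ⟨⟨_, a.ctr_mem hc c0⟩, ⟨c, hc, c0, rfl⟩, h⟩
    · rintro z ⟨c, hc, c0, h1⟩ w ⟨d, hd, d0, h2⟩ hzw
      rw [hn, Submodule.coe_sub, h1, h2]
      refine a.sep c hc c0 d hd d0 fun h => hzw (Subtype.ext ?_)
      rw [h1, h2, h]
  · refine lt_of_lt_of_le (b := ((1 + 1 / 1000000 : ℝ) : EReal)) ?_ (le_sInf ?_)
    · exact_mod_cast (by norm_num : (1 : ℝ) < 1 + 1 / 1000000)
    · rintro _ ⟨r, ⟨-, L, h1, h2⟩, rfl⟩
      refine EReal.coe_le_coe_iff.2 (a.nice.no_lattice hS (L.map (Y a.S).subtype.toAddMonoidHom)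
        ?_ ?_ ?_)
      · rintro _ ⟨g, -, rfl⟩
        exact g.2
      · rintro _ ⟨g, hg, rfl⟩ h0
        have := h2 g hg 0 L.zero_mem fun h => h0 (by rw [h]; rfl)
        rwa [sub_zero] at this
      · intro x hx
        obtain ⟨g, hg, h⟩ := h1 ⟨x, hx⟩
        exact ⟨g, ⟨g, hg, rfl⟩, h⟩

end Pool.Agent.H524Z.Gam
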