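import Pool.Agent.H524Z.Tile.Norms

/-!
# Norms on finitely supported functions with a lower Euclidean estimate: one step extension
-/

set_option autoImplicit false

open Classical

namespace Pool.Agent.H524Z.Gam

open Pool.Agent.H524Z.Tile

section semi

variable {V : Type} [AddCommGroup V] [Module ℝ V] {W W' : Submodule ℝ V} {G H : V → ℝ}

theorem semi_pyth (hG : Semi W G) (hH : Semi W H) : Semi W fun z => √(G z ^ 2 + H z ^ 2) := by
  constructor
  · intro x hx y hy
    refine le_trans (Real.sqrt_le_sqrt ?_) (mink (G x) (H x) (G y) (H y))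
    have h1 := pow_le_pow_left₀ (hG.nonneg (W.add_mem hx hy)) (hG.add x hx y hy) 2
    have h2 := pow_le_pow_left₀ (hH.nonneg (W.add_mem hx hy)) (hH.add x hx y hy) 2
    linarith
  · intro c x hx
    rw [hG.smul c x hx, hH.smul c x hx, mul_pow, mul_pow, ← mul_add, Real.sqrt_mul (sq_nonneg _),
      Real.sqrt_sq (abs_nonneg c)]

theorem semi_add (hG : Semi W G) (hH : Semi W H) : Semi W fun z => G z + H z := by
  constructor
  · intro x hx y hy
    linarith [hG.add x hx y hy, hH.add x hx y hy]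
  · intro c x hx
    rw [hG.smul c x hx, hH.smul c x hx, mul_add]

theorem semi_comp (hG : Semi W G) (p : V →ₗ[ℝ] V) (hp : ∀ z ∈ W', p z ∈ W) :
    Semi W' fun z => G (p z) := by
  constructor
  · intro x hx y hy
    rw [map_add]
    exact hG.add _ (hp x hx) _ (hp y hy)
  · intro c x hx
    rw [map_smul]
    exact hG.smul c _ (hp x hx)

theorem semi_abs (t : V →ₗ[ℝ] ℝ) : Semi W fun z => |t z| := by
  constructor
  · intro x _ y _
    rw [map_add]
    exact abs_add_le _ _
  · intro c x _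
    rw [map_smul, smul_eq_mul, abs_mul]

theorem semi_iSup {I : Type} [Nonempty I] {T : I → V → ℝ} (hT : ∀ i, Semi W (T i))
    (hb : ∀ z ∈ W, BddAbove (Set.range fun i => T i z)) : Semi W fun z => ⨆ i, T i z := by
  constructor
  · intro x hx y hy
    refine ciSup_le fun i => ((hT i).add x hx y hy).trans ?_
    exact add_le_add (le_ciSup (hb x hx) i) (le_ciSup (hb y hy) i)
  · intro c x hx
    rw [Real.mul_iSup_of_nonneg (abs_nonneg c)]
    exact iSup_congr fun i => (hT i).smul c x hx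

theorem semi_sum (hG : Semi W G) {ι : Type} (T : Finset ι) (f : ι → V) (hf : ∀ i ∈ T, f i ∈ W) :
    G (∑ i ∈ T, f i) ≤ ∑ i ∈ T, G (f i) := by
  induction T using Finset.induction_on with
  | empty => simp [hG.zero]
  | insert a T ha ih =>
    rw [Finset.sum_insert ha, Finset.sum_insert ha]
    have h1 : ∀ i ∈ T, f i ∈ W := fun i hi => hf i (Finset.mem_insert_of_mem hi)
    have := hG.add _ (hf a (Finset.mem_insert_self _ _)) _ (W.sum_mem h1)
    linarith [ih h1]

end semi

variable {Γ : Type}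

/-- finitely supported functions with support in `S` -/
abbrev Y (S : Set Γ) : Submodule ℝ (Γ →₀ ℝ) := Finsupp.supported ℝ ℝ S

theorem mem_Y {S : Set Γ} {y : Γ →₀ ℝ} : y ∈ Y S ↔ ∀ c, c ∉ S → y c = 0 :=
  Finsupp.mem_supported' ℝ y

theorem Y_mono {S T : Set Γ} (h : S ⊆ T) {y : Γ →₀ ℝ} (hy : y ∈ Y S) : y ∈ Y T :=
  Finsupp.supported_mono h hy

theorem single_mem {S : Set Γ} {c : Γ} (hc : c ∈ S) (a : ℝ) : Finsupp.single c a ∈ Y S := by
  rw [mem_Y]
  intro d hd
  have : d ≠ c := fun h => hd (h ▸ hc)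
  simp [this]

/-- restriction to a set of coordinates -/
noncomputable def P (B : Set Γ) : (Γ →₀ ℝ) →ₗ[ℝ] (Γ →₀ ℝ) where
  toFun v := v.filter (· ∈ B)
  map_add' _ _ := Finsupp.filter_add
  map_smul' c v := by
    ext a
    simp only [Finsupp.filter_apply, Finsupp.smul_apply, RingHom.id_apply]
    split_ifs <;> simp

theorem P_apply (B : Set Γ) (v : Γ →₀ ℝ) (c : Γ) : P B v c = if c ∈ B then v c else 0 :=
  Finsupp.filter_apply _ _ _

theorem P_mem {S : Set Γ} (B : Set Γ) {v : Γ →₀ ℝ} (hv : v ∈ Y S) : P B v ∈ Y S := by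
  rw [mem_Y] at hv ⊢
  intro c hc
  rw [P_apply, hv c hc, ite_self]

theorem P_add_compl (B : Set Γ) (v : Γ →₀ ℝ) : P B v + P Bᶜ v = v := by
  ext c
  by_cases h : c ∈ B <;> simp [P_apply, h]

theorem P_P (A B : Set Γ) (v : Γ →₀ ℝ) : P A (P B v) = P (A ∩ B) v := by
  ext c
  by_cases h : c ∈ A <;> by_cases h' : c ∈ B <;> simp [P_apply, h, h']

theorem P_single (c : Γ) (v : Γ →₀ ℝ) : P {c} v = Finsupp.single c (v c) := by
  ext a
  by_cases h : a = c
  · simp [P_apply, h]
  · simp [P_apply, h]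

/-- the squared Euclidean norm -/
noncomputable def q (v : Γ →₀ ℝ) : ℝ := ∑ c ∈ v.support, v c ^ 2

theorem q_eq {v : Γ →₀ ℝ} {T : Finset Γ} (h : v.support ⊆ T) : q v = ∑ c ∈ T, v c ^ 2 := by
  apply Finset.sum_subset h
  intro c _ hc
  rw [Finsupp.notMem_support_iff.1 hc]
  simp

theorem q_nonneg (v : Γ →₀ ℝ) : 0 ≤ q v := Finset.sum_nonneg fun _ _ => sq_nonneg _

theorem q_zero : q (0 : Γ →₀ ℝ) = 0 := by simp [q]

theorem q_single (c : Γ) (a : ℝ) : q (Finsupp.single c a) = a ^ 2 := by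
  rw [q_eq Finsupp.support_single_subset]
  simp

theorem q_add {u v : Γ →₀ ℝ} (h : ∀ c, u c * v c = 0) : q (u + v) = q u + q v := by
  rw [q_eq Finsupp.support_add, q_eq (T := u.support ∪ v.support) Finset.subset_union_left,
    q_eq (v := v) (T := u.support ∪ v.support) Finset.subset_union_right,
    ← Finset.sum_add_distrib]
  apply Finset.sum_congr rfl
  intro c _
  rw [Finsupp.add_apply, add_sq, mul_assoc, h c]
  ring

theorem q_P (B : Set Γ) (v : Γ →₀ ℝ) : q (P B v) + q (P Bᶜ v) = q v := by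
  rw [← q_add, P_add_compl]
  intro c
  by_cases h : c ∈ B <;> simp [P_apply, h]

theorem q_P_le (B : Set Γ) (v : Γ →₀ ℝ) : q (P B v) ≤ q v := by
  linarith [q_P B v, q_nonneg (P Bᶜ v)]

theorem q_erase (c : Γ) (v : Γ →₀ ℝ) : v c ^ 2 + q (P {c}ᶜ v) = q v := by
  rw [← q_P {c} v, P_single, q_single]

theorem q_PP (A B : Set Γ) (v : Γ →₀ ℝ) : q (P Aᶜ (P B v)) + q (P Bᶜ v) = q (P (A ∩ B)ᶜ v) := by
  rw [← q_add]
  · congr 1
    ext c
    by_cases h : c ∈ A <;> by_cases h' : c ∈ B <;> simp [P_apply, h, h']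
  · intro c
    by_cases h : c ∈ A <;> by_cases h' : c ∈ B <;> simp [P_apply, h, h']

theorem semi_q (W : Submodule ℝ (Γ →₀ ℝ)) : Semi W fun v => √(q v) := by
  constructor
  · intro u _ v _
    rw [q_eq Finsupp.support_add, q_eq (T := u.support ∪ v.support) Finset.subset_union_left,
      q_eq (v := v) (T := u.support ∪ v.support) Finset.subset_union_right]
    set T := u.support ∪ v.support
    have h := Real.sum_mul_le_sqrt_mul_sqrt T u v
    have a0 : 0 ≤ ∑ c ∈ T, u c ^ 2 := Finset.sum_nonneg fun _ _ => sq_nonneg _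
    have b0 : 0 ≤ ∑ c ∈ T, v c ^ 2 := Finset.sum_nonneg fun _ _ => sq_nonneg _
    apply Real.sqrt_le_iff.2
    refine ⟨by positivity, ?_⟩
    have e : ∑ c ∈ T, (u + v) c ^ 2 =
        ∑ c ∈ T, u c ^ 2 + 2 * ∑ c ∈ T, u c * v c + ∑ c ∈ T, v c ^ 2 := by
      rw [Finset.mul_sum, ← Finset.sum_add_distrib, ← Finset.sum_add_distrib]
      apply Finset.sum_congr rfl
      intro c _
      rw [Finsupp.add_apply]
      ring
    rw [e, add_sq, Real.sq_sqrt a0, Real.sq_sqrt b0]
    linarith
  · intro c v _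
    rw [q_eq Finsupp.support_smul, q]
    simp only [Finsupp.smul_apply, smul_eq_mul, mul_pow]
    rw [← Finset.mul_sum, Real.sqrt_mul (sq_nonneg c), Real.sqrt_sq_eq_abs]

/-- independence of two vectors with respect to the dependency sets `D` -/
def Ind (D : Γ → Finset Γ) (v w : Γ →₀ ℝ) : Prop :=
  (∀ a, v a ≠ 0 → w a = 0 ∧ ∀ b ∈ D a, w b = 0) ∧ (∀ a, w a ≠ 0 → ∀ b ∈ D a, v b = 0)

theorem Ind.symm {D : Γ → Finset Γ} {v w : Γ →₀ ℝ} (h : Ind D v w) : Ind D w v :=
  ⟨fun a ha => ⟨by_contra fun h1 => ha (h.1 a h1).1, h.2 a ha⟩, fun a ha => (h.1 a ha).2⟩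

theorem Ind.mul {D : Γ → Finset Γ} {v w : Γ →₀ ℝ} (h : Ind D v w) (c : Γ) : v c * w c = 0 := by
  by_cases h1 : v c = 0
  · simp [h1]
  · simp [(h.1 c h1).1]

theorem Ind.mono {D : Γ → Finset Γ} {v w v' w' : Γ →₀ ℝ} (h : Ind D v w)
    (h1 : ∀ a, v a = 0 → v' a = 0) (h2 : ∀ a, w a = 0 → w' a = 0) : Ind D v' w' :=
  ⟨fun a ha => ⟨h2 a (h.1 a fun h0 => ha (h1 a h0)).1,
      fun b hb => h2 b ((h.1 a fun h0 => ha (h1 a h0)).2 b hb)⟩,
    fun a ha b hb => h1 b (h.2 a (fun h0 => ha (h2 a h0)) b hb)⟩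

/-- the invariants of the construction -/
structure Nice (D : Γ → Finset Γ) (S : Set Γ) (N : (Γ →₀ ℝ) → ℝ) : Prop where
  semi : Semi (Y S) N
  l2 : ∀ B : Set Γ, ∀ v ∈ Y S, N (P B v) ^ 2 + q (P Bᶜ v) ≤ N v ^ 2
  unit : ∀ c ∈ S, N (Finsupp.single c 1) = 1
  cross : ∀ v ∈ Y S, ∀ w ∈ Y S, ∀ m : ℝ, 0 ≤ m → Ind D v w → (∀ a b, -(v a * w b) ≤ m) →
    N (v + w) ^ 2 ≤ N v ^ 2 + N w ^ 2 + 2 * m

variable {D : Γ → Finset Γ} {S : Set Γ} {N : (Γ →₀ ℝ) → ℝ}

theorem Nice.q_le (h : Nice D S N) {v : Γ →₀ ℝ} (hv : v ∈ Y S) : q v ≤ N v ^ 2 := by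
  have h1 := h.l2 ∅ v hv
  have h2 : P (∅ : Set Γ)ᶜ v = v := by
    ext c
    simp [P_apply]
  rw [h2] at h1
  nlinarith [sq_nonneg (N (P ∅ v))]

theorem Nice.P_le (h : Nice D S N) (B : Set Γ) {v : Γ →₀ ℝ} (hv : v ∈ Y S) : N (P B v) ≤ N v := by
  have h1 := h.l2 B v hv
  apply le_of_sq_le_sq _ (h.semi.nonneg hv) |>.trans' (le_refl _)
  linarith [q_nonneg (P Bᶜ v)]

theorem Nice.coord (h : Nice D S N) {v : Γ →₀ ℝ} (hv : v ∈ Y S) (c : Γ) : |v c| ≤ N v := by
  apply abs_le_of_sq_le_sq _ (h.semi.nonneg hv)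
  linarith [h.q_le hv, q_erase c v, q_nonneg (P {c}ᶜ v)]

theorem nice_init (D : Γ → Finset Γ) (S : Set Γ) : Nice D S fun v => √(q v) := by
  refine ⟨semi_q _, ?_, ?_, ?_⟩
  · intro B v _
    rw [Real.sq_sqrt (q_nonneg _), Real.sq_sqrt (q_nonneg _), q_P]
  · intro c _
    simp [q_single]
  · intro v _ w _ m hm hi _
    rw [Real.sq_sqrt (q_nonneg _), Real.sq_sqrt (q_nonneg _), Real.sq_sqrt (q_nonneg _),
      q_add hi.mul]
    linarith

theorem Nice.extend (hN : Nice D S N) {δ : Γ} (hδ : δ ∉ S) :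
    ∃ N' : (Γ →₀ ℝ) → ℝ, Nice D (insert δ S) N' ∧ (∀ z ∈ Y S, N' z = N z) ∧
      (∀ y ∈ Y S, (∀ a, y a ≠ 0 → a ∈ D δ) → N y + 1 ≤ N' (y + Finsupp.single δ 1)) ∧
      (∀ y ∈ Y S, ∀ c, y c = -1 → 2 ≤ N' (y + Finsupp.single δ 1)) := by
  set p : (Γ →₀ ℝ) →ₗ[ℝ] (Γ →₀ ℝ) := P {δ}ᶜ with hpd
  have hp : ∀ z ∈ Y (insert δ S), p z ∈ Y S := by
    intro z hz
    rw [mem_Y] at hz ⊢
    intro c hc
    rw [hpd, P_apply]
    split_ifs with h
    · exact hz c (by simpa [hc] using h)
    · rfl
  have hold : ∀ z ∈ Y S, p z = z ∧ z δ = 0 := by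
    intro z hz
    have h0 := mem_Y.1 hz δ hδ
    refine ⟨?_, h0⟩
    ext c
    rw [hpd, P_apply]
    split_ifs with h
    · rfl
    · have : c = δ := by simpa using h
      rw [this, h0]
  have hsub : ∀ z ∈ Y S, z ∈ Y (insert δ S) := fun z hz => Y_mono (Set.subset_insert _ _) hz
  have he : p (Finsupp.single δ 1) = 0 := by
    ext c
    rw [hpd, P_apply]
    split_ifs with h
    · have : c ≠ δ := by simpa using h
      simp [this]
    · rfl
  set sq : Option (Set Γ ⊕ Γ) → (Γ →₀ ℝ) → ℝ := fun i z =>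
    match i with
    | none => N (p z) ^ 2 + z δ ^ 2
    | some (.inl B) => (N (P (B ∩ D δ) (p z)) + |z δ|) ^ 2 + q (P (B ∩ D δ)ᶜ (p z))
    | some (.inr c) => (z δ - p z c) ^ 2 + q (P {c}ᶜ (p z)) with hsq
  have sq0 : ∀ i z, 0 ≤ sq i z := by
    rintro (_ | B | c) z
    · simp only [hsq]; positivity
    · simp only [hsq]; exact add_nonneg (sq_nonneg _) (q_nonneg _)
    · simp only [hsq]; exact add_nonneg (sq_nonneg _) (q_nonneg _)
  have hT : ∀ i, Semi (Y (insert δ S)) fun z => √(sq i z) := by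
    rintro (_ | B | c)
    · have := semi_pyth (semi_comp hN.semi p hp) (semi_abs (Finsupp.lapply δ))
      simpa only [sq_abs, Finsupp.lapply_apply] using this
    · have := semi_pyth (semi_add (semi_comp hN.semi ((P (B ∩ D δ)).comp p)
        fun z hz => P_mem _ (hp z hz)) (semi_abs (Finsupp.lapply δ)))
        (semi_comp (semi_q ⊤) ((P (B ∩ D δ)ᶜ).comp p) fun _ _ => Submodule.mem_top)
      simpa only [Real.sq_sqrt (q_nonneg _), Finsupp.lapply_apply, LinearMap.comp_apply] using this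
    · have := semi_pyth (W := Y (insert δ S))
        (semi_abs (Finsupp.lapply δ - (Finsupp.lapply c).comp p))
        (semi_comp (semi_q ⊤) ((P {c}ᶜ).comp p) fun _ _ => Submodule.mem_top)
      simpa only [Real.sq_sqrt (q_nonneg _), Finsupp.lapply_apply, LinearMap.comp_apply,
        LinearMap.sub_apply, sq_abs] using this
  have hbd : ∀ z ∈ Y (insert δ S), ∀ i, sq i z ≤ (N (p z) + |z δ|) ^ 2 := by
    intro z hz i
    have n0 := hN.semi.nonneg (hp z hz)
    have t0 := abs_nonneg (z δ)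
    rcases i with (_ | B | c)
    · simp only [hsq]
      rw [← sq_abs (z δ)]
      nlinarith [mul_nonneg n0 t0]
    · simp only [hsq]
      have h1 := hN.l2 (B ∩ D δ) _ (hp z hz)
      have h2 := mul_le_mul_of_nonneg_right (hN.P_le (B ∩ D δ) (hp z hz)) t0
      nlinarith
    · simp only [hsq]
      have h1 := q_erase c (p z)
      have h2 := hN.q_le (hp z hz)
      have h3 := mul_le_mul_of_nonneg_right (hN.coord (hp z hz) c) t0
      have h4 : -(p z c * z δ) ≤ |p z c| * |z δ| := by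
        rw [← abs_mul]; exact neg_le_abs _
      nlinarith [sq_abs (z δ)]
  have hb : ∀ z ∈ Y (insert δ S), BddAbove (Set.range fun i => √(sq i z)) := by
    intro z hz
    refine ⟨√((N (p z) + |z δ|) ^ 2), ?_⟩
    rintro _ ⟨i, rfl⟩
    exact Real.sqrt_le_sqrt (hbd z hz i)
  set N' : (Γ →₀ ℝ) → ℝ := fun z => ⨆ i, √(sq i z) with hN'
  have hS : Semi (Y (insert δ S)) N' := semi_iSup hT hb
  have lo : ∀ z ∈ Y (insert δ S), ∀ i, sq i z ≤ N' z ^ 2 := fun z hz i =>
    (Real.sqrt_le_left (hS.nonneg hz)).1 (le_ciSup (hb z hz) i)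
  have hi : ∀ z ∈ Y (insert δ S), ∀ a : ℝ, (∀ i, sq i z ≤ a) → N' z ^ 2 ≤ a := by
    intro z hz a h
    have a0 : 0 ≤ a := (sq0 none z).trans (h none)
    rw [← Real.le_sqrt (hS.nonneg hz) a0]
    exact ciSup_le fun i => Real.sqrt_le_sqrt (h i)
  have heq : ∀ z ∈ Y S, N' z = N z := by
    intro z hz
    rw [← sq_eq_sq₀ (hS.nonneg (hsub z hz)) (hN.semi.nonneg hz)]
    apply le_antisymm
    · apply hi z (hsub z hz)
      intro i
      have := hbd z (hsub z hz) i
      rwa [(hold z hz).1, (hold z hz).2, abs_zero, add_zero] at this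
    · have := lo z (hsub z hz) none
      simp only [hsq, (hold z hz).1, (hold z hz).2] at this
      linarith
  have heY : Finsupp.single δ (1 : ℝ) ∈ Y (insert δ S) := single_mem (Set.mem_insert _ _) 1
  have pP : ∀ (B : Set Γ) z, p (P B z) = P B (p z) := by
    intro B z
    rw [hpd, P_P, P_P, Set.inter_comm]
  have asym : ∀ v ∈ Y (insert δ S), ∀ w ∈ Y (insert δ S), ∀ m : ℝ, 0 ≤ m → Ind D v w →
      (∀ a b, -(v a * w b) ≤ m) → w δ = 0 → N' (v + w) ^ 2 ≤ N' v ^ 2 + N' w ^ 2 + 2 * m := by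
    intro v hv w hw m hm hI hM hw0
    have hwS : w ∈ Y S := by
      rw [mem_Y] at hw ⊢
      intro c hc
      by_cases h : c = δ
      · rw [h, hw0]
      · exact hw c (by simp [h, hc])
    have pv : ∀ a, v a = 0 → p v a = 0 := fun a ha => by rw [hpd, P_apply, ha, ite_self]
    have hI' : Ind D (p v) w := hI.mono pv fun _ h => h
    have hM' : ∀ a b, -(p v a * w b) ≤ m := by
      intro a b
      rw [hpd, P_apply]
      split_ifs
      · exact hM a b
      · simpa using hm
    have old := hN.cross _ (hp v hv) w hwS m hm hI' hM'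
    have e1 : p (v + w) = p v + w := by rw [map_add, (hold w hwS).1]
    have e2 : (v + w) δ = v δ := by rw [Finsupp.add_apply, hw0, add_zero]
    have l0 := lo v hv none
    simp only [hsq] at l0
    have qw := hN.q_le hwS
    have qP : ∀ B : Set Γ, q (P B (p v + w)) = q (P B (p v)) + q (P B w) := by
      intro B
      rw [map_add, q_add]
      intro c
      simp only [P_apply B]
      split_ifs
      · exact hI'.mul c
      · simp
    rw [heq w hwS]
    by_cases hv0 : v δ = 0
    · have hvS : v ∈ Y S := by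
        rw [mem_Y] at hv ⊢
        intro c hc
        by_cases h : c = δ
        · rw [h, hv0]
        · exact hv c (by simp [h, hc])
      rw [heq v hvS, heq _ (Submodule.add_mem _ hvS hwS)]
      exact hN.cross v hvS w hwS m hm hI hM
    apply hi _ (Submodule.add_mem _ hv hw)
    rintro (_ | B | c)
    · simp only [hsq, e1, e2]
      linarith
    · have l1 := lo v hv (some (.inl B))
      simp only [hsq, e1, e2] at l1 ⊢
      have e3 : P (B ∩ D δ) (p v + w) = P (B ∩ D δ) (p v) := by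
        rw [map_add, add_eq_left]
        ext c
        rw [P_apply]
        split_ifs with h
        · exact (hI.1 δ hv0).2 c h.2
        · rfl
      rw [e3, qP]
      linarith [q_P_le (B ∩ D δ)ᶜ w]
    · have l1 := lo v hv (some (.inr c))
      simp only [hsq, e1, e2] at l1 ⊢
      rw [qP, Finsupp.add_apply]
      by_cases hc : w c = 0
      · rw [hc, add_zero]
        linarith [q_P_le {c}ᶜ w]
      · have h1 : p v c = 0 := (hI'.symm.1 c hc).1
        rw [h1, zero_add]
        have h2 := q_erase c w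
        have h3 := q_P_le {c}ᶜ (p v)
        have h4 := hN.q_le (hp v hv)
        have h5 := hM δ c
        nlinarith
  refine ⟨N', ⟨hS, ?_, ?_, ?_⟩, heq, ?_, ?_⟩
  · intro B v hv
    rw [← le_sub_iff_add_le]
    have l0 := lo v hv none
    simp only [hsq] at l0
    have a1 := hN.l2 B _ (hp v hv)
    by_cases hB : δ ∈ B
    · have e1 : P B v δ = v δ := by rw [P_apply, if_pos hB]
      have e2 : P Bᶜ v = P Bᶜ (p v) := by
        rw [hpd, P_P]
        congr 2
        ext c
        simp only [Set.mem_compl_iff, Set.mem_inter_iff, Set.mem_singleton_iff, iff_self_and]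
        rintro h rfl
        exact h hB
      rw [e2]
      apply hi _ (P_mem B hv)
      rintro (_ | A | c)
      · simp only [hsq, e1, pP]
        linarith
      · have l1 := lo v hv (some (.inl (A ∩ B)))
        simp only [hsq, e1, pP] at l1 ⊢
        have e3 : A ∩ B ∩ ↑(D δ) = A ∩ ↑(D δ) ∩ B := Set.inter_right_comm _ _ _
        rw [e3, ← q_PP, ← P_P] at l1
        linarith
      · have l1 := lo v hv (some (.inr c))
        simp only [hsq, e1, pP] at l1 ⊢
        have h1 := q_erase c (P B (p v))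
        have h2 := q_P B (p v)
        have h3 := q_erase c (p v)
        by_cases hc : c ∈ B
        · rw [P_apply, if_pos hc] at h1 ⊢
          linarith
        · rw [P_apply, if_neg hc] at h1 ⊢
          linarith [hN.q_le (hp v hv)]
    · have e1 : P B v = P B (p v) := by
        rw [hpd, P_P]
        congr 2
        ext c
        simp only [Set.mem_compl_iff, Set.mem_inter_iff, Set.mem_singleton_iff, iff_self_and]
        rintro h rfl
        exact hB h
      have e2 := q_erase δ (P Bᶜ v)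
      rw [P_apply, if_pos (Set.mem_compl hB), ← hpd, pP] at e2
      rw [e1, heq _ (P_mem B (hp v hv))]
      linarith
  · rintro c (rfl | hc)
    · rw [← sq_eq_sq₀ (hS.nonneg heY) zero_le_one]
      apply le_antisymm
      · apply hi _ heY
        intro i
        have := hbd _ heY i
        rwa [he, hN.semi.zero, Finsupp.single_eq_same, abs_one, zero_add] at this
      · have := lo _ heY none
        simp only [hsq, he, hN.semi.zero, Finsupp.single_eq_same] at this
        linarith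
    · rw [heq _ (single_mem hc 1), hN.unit c hc]
  · intro v hv w hw m hm hI hM
    by_cases h : w δ = 0
    · exact asym v hv w hw m hm hI hM h
    · have := asym w hw v hv m hm hI.symm (fun a b => by rw [mul_comm]; exact hM b a)
        (hI.symm.1 δ h).1
      rw [add_comm w v] at this
      linarith
  · intro y hy hD
    have hz := Submodule.add_mem _ (hsub y hy) heY
    have l1 := lo _ hz (some (.inl Set.univ))
    have e1 : p (y + Finsupp.single δ 1) = y := by rw [map_add, he, (hold y hy).1, add_zero]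
    have e2 : (y + Finsupp.single δ (1 : ℝ)) δ = 1 := by simp [(hold y hy).2]
    have e3 : P (Set.univ ∩ ↑(D δ)) y = y := by
      ext c
      rw [P_apply]
      split_ifs with h
      · rfl
      · by_contra h0
        exact h ⟨trivial, hD c fun h1 => h0 h1.symm⟩
    simp only [hsq, e1, e2, e3, abs_one] at l1
    exact le_of_sq_le_sq (by linarith [q_nonneg (P (Set.univ ∩ ↑(D δ))ᶜ y)]) (hS.nonneg hz)
  · intro y hy c hc
    have hz := Submodule.add_mem _ (hsub y hy) heY
    have l1 := lo _ hz (some (.inr c))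
    have e1 : p (y + Finsupp.single δ 1) = y := by rw [map_add, he, (hold y hy).1, add_zero]
    have e2 : (y + Finsupp.single δ (1 : ℝ)) δ = 1 := by simp [(hold y hy).2]
    simp only [hsq, e1, e2, hc] at l1
    exact le_of_sq_le_sq (by linarith [q_nonneg (P {c}ᶜ y)]) (hS.nonneg hz)

end Pool.Agent.H524Z.Gam
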